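import Pool.Agent.Helper10.SP.GoalsK

/-! # SP-LOCZ: isolating balls -/

set_option autoImplicit false

open Complex Metric Set Filter Topology MeasureTheory
open scoped ContDiff ComplexConjugate ComplexOrder Manifold

namespace Pool.Agent.Helper87.SP

open Pool.Agent.Helper10.SP
open Pool.Agent.Helper95.Lin Pool.Agent.Helper16.Abund Pool.Agent.Helper92.Orb

theorem locz : S_LOCZ := by
  intro b N c R P Φ C hA n s hG i z₀ hz₀
  have h1 : ∀ᶠ r : ℝ in 𝓝[>] 0, closedBall z₀ r ⊆ ball (c i) 2 := by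
    obtain ⟨ε, hε, h⟩ := Metric.nhds_basis_closedBall.mem_iff.1 (isOpen_ball.mem_nhds hz₀)
    filter_upwards [Ioo_mem_nhdsGT hε] with r hr
    exact (closedBall_subset_closedBall hr.2.le).trans h
  have h2 : ∀ᶠ r : ℝ in 𝓝[>] 0, (b : ℝ) * r ^ 2 ≤ 1 / 2 := by
    have ht : Tendsto (fun r : ℝ => (b : ℝ) * r ^ 2) (𝓝[>] 0) (𝓝 ((b : ℝ) * 0 ^ 2)) := by
      apply Tendsto.mono_left _ nhdsWithin_le_nhds
      exact (continuous_const.mul (continuous_pow 2)).tendsto 0
    have h0 : (b : ℝ) * 0 ^ 2 < 1 / 2 := by norm_num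
    filter_upwards [ht.eventually (gt_mem_nhds h0)] with r hr
    exact hr.le
  have h3 : ∀ᶠ r : ℝ in 𝓝[>] 0, ∀ k,
      (∃ z ∈ closedBall z₀ r, (s i k).g z ∈ closedBall z₀ r) → (s i k).g z₀ = z₀ := by
    rw [eventually_all]
    intro k
    by_cases hk : (s i k).g z₀ = z₀
    · exact Eventually.of_forall fun _ _ => hk
    · have hd : 0 < dist ((s i k).g z₀) z₀ := dist_pos.2 hk
      have hcont : ContinuousAt (s i k).g z₀ := by
        have h4 := (hA.holo _ _ (hG.big i k).1).2.2.1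
        exact (h4.continuousOn).continuousAt
          (isOpen_ball.mem_nhds (ball_subset_ball (by norm_num) hz₀))
      obtain ⟨ε, hε, h⟩ := Metric.continuousAt_iff.1 hcont _ (half_pos hd)
      filter_upwards [Ioo_mem_nhdsGT hε, Ioo_mem_nhdsGT (half_pos hd)] with r hr hr2
      rintro ⟨z, hz, hz'⟩
      exfalso
      have h5 := h (lt_of_le_of_lt (mem_closedBall.1 hz) hr.2)
      have h6 := mem_closedBall.1 hz'
      have h7 := dist_triangle ((s i k).g z₀) ((s i k).g z) z₀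
      rw [dist_comm ((s i k).g z₀) ((s i k).g z)] at h7
      have := hr2.2
      linarith
  have h4 : ∀ᶠ r : ℝ in 𝓝[>] 0, 0 < r := self_mem_nhdsWithin
  obtain ⟨r, h⟩ := (h1.and (h2.and (h3.and h4))).exists
  exact ⟨r, h.2.2.2, h.2.1, h.1, h.2.2.1⟩

end Pool.Agent.Helper87.SP
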