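import Pool.Agent.Helper10.SP.GoalsK

/-! # SP-MAINSP: the theorem for `Data` -/

set_option autoImplicit false

open Complex Metric Set Filter Topology MeasureTheory
open scoped ContDiff ComplexConjugate ComplexOrder Manifold

namespace Pool.Agent.Helper87.SP

open Pool.Agent.Helper10.SP
open Pool.Agent.Helper95.Lin Pool.Agent.Helper16.Abund Pool.Agent.Helper92.Orb

universe u v

theorem mainsp (hGEO : S_GEO.{u, v}) (hDISF : S_DISF.{u}) (hSECT : S_SECT.{u})
    (hBACK : S_BACK.{u, v}) : S_MAINSP.{u, v} := by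
  intro b G M _ _ _ _ _ _ _ h v hb hD
  obtain ⟨N, c, R, E, Φ, C, H, hL, hF⟩ := hGEO hb hD
  have hR : 2 ≤ R := by
    have h1 := hF.fol.Rge
    have h2 := hF.fol.Cge
    linarith
  have hdisc := hDISF c R _ _ Φ C H hF
  obtain ⟨m, hm, hsec⟩ := hSECT c R _ _ Φ C H hF hdisc
  refine ⟨m, hm, fun p => ?_⟩
  obtain ⟨γ, z, hz, w, hw, hp⟩ := hL.cov p
  obtain ⟨g, hg1, hg2, hg3⟩ := hsec z hz
  obtain ⟨f, hf1, hf2⟩ := hBACK hD c R E Φ hL hR m g hg1 hg2
  refine ⟨f, hf1, ?_⟩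
  have hmem : pt z w ∈ tubeS (Bd c 2) := by
    have hbase : base (pt z w) = z := by
      funext j
      simp [base, pt]
    show base (pt z w) ∈ Bd c 2
    rw [hbase]
    obtain ⟨i, hi⟩ := mem_iUnion.1 hz
    exact mem_iUnion.2 ⟨i, ball_subset_ball (by norm_num) hi⟩
  have h1 := hf2 _ hmem (hg3 w)
  rw [← hp] at h1
  have h2 := hf1.2 γ⁻¹ (Subgroup.mem_top _) (γ • p)
  rw [inv_smul_smul] at h2
  intro h3
  rw [h3, zero_mul] at h2
  exact h1 h2.symm

end Pool.Agent.Helper87.SP
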