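import Pool.Agent.Helper10.SP.GoalsK
import Pool.Agent.Helper95.Lin.Basics

/-! # SP-PUE2: partition functions which are positive on a compact set
(the proof of `Helper75.SP.pue`) -/

set_option autoImplicit false

open Complex Metric Set Filter Topology MeasureTheory
open scoped ContDiff ComplexConjugate ComplexOrder Manifold

namespace Pool.Agent.Helper87.SP

open Pool.Agent.Helper10.SP Pool.Agent.Helper95.Lin Pool.Agent.Helper16.Abund
  Pool.Agent.Helper92.Orb

universe u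

/-- SP packet PUE2. -/
theorem pue2 (hLFIN : S_LFIN.{u}) (hASI : S_ASI.{u}) : S_PUE2.{u} := by
  intro n T G _ R hE C hC hCc
  obtain ⟨K0, hK0, hK0c, hcov0⟩ := hE.coc
  obtain ⟨K, hKdef⟩ : ∃ K, K = K0 ∪ C := ⟨_, rfl⟩
  have hK : K ⊆ T := hKdef ▸ union_subset hK0 hC
  have hKc : IsCompact K := hKdef ▸ hK0c.union hCc
  have hcov : ∀ x ∈ T, ∃ γ, ∃ y ∈ K, R γ x y := by
    intro x hx
    obtain ⟨γ, y, hy, hR⟩ := hcov0 x hx
    exact ⟨γ, y, hKdef ▸ Or.inl hy, hR⟩
  obtain ⟨K', hK'c, hKK', hK'M⟩ := exists_compact_between hKc hE.isOpen hK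
  obtain ⟨χ₀, hsupp, hsm, hrange⟩ :=
    (isOpen_interior (s := K')).exists_contDiff_support_eq (n := (⊤ : ℕ∞)) (E := Cn n)
  have hts : tsupport χ₀ ⊆ K' := by
    rw [tsupport, hsupp]
    exact closure_minimal interior_subset hK'c.isClosed
  have htc : IsCompact (tsupport χ₀) := hK'c.of_isClosed_subset (isClosed_tsupport _) hts
  have htM : tsupport χ₀ ⊆ T := hts.trans hK'M
  have h0 : ∀ x, 0 ≤ χ₀ x := fun x => (hrange (mem_range_self x)).1
  have hpos : ∀ x ∈ K, 0 < χ₀ x := by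
    intro x hx
    have : x ∈ Function.support χ₀ := by rw [hsupp]; exact hKK' hx
    exact lt_of_le_of_ne (h0 x) (Ne.symm this)
  have hKt : K ⊆ tsupport χ₀ := fun x hx => subset_tsupport _ (hpos x hx).ne'
  have hfin := hLFIN T R hE (tsupport χ₀) htM htc
  set S : Cn n → ℝ := fun x => AS R x (fun _ y => χ₀ y) with hS
  have hvan : ∀ (γ' : G) (y : Cn n), y ∉ tsupport χ₀ → (fun (_ : G) y => χ₀ y) γ' y = 0 :=
    fun _ y hy => image_eq_zero_of_notMem_tsupport hy
  have hSpos : ∀ x ∈ T, 0 < S x := by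
    intro x hx
    obtain ⟨U, m, γ, τ, hxU, -, -, -, -, hcomp, hAS⟩ := hfin x hx
    have e : S x = ∑ k, χ₀ (τ k x) := hAS ℝ (fun _ y => χ₀ y) hvan x hxU
    obtain ⟨γ', y, hy, hR⟩ := hcov x hx
    obtain ⟨k, -, hk⟩ := hcomp x hxU γ' y hR (hKt hy)
    rw [e]
    refine Finset.sum_pos' (fun k _ => h0 _) ⟨k, Finset.mem_univ _, ?_⟩
    rw [← hk]; exact hpos y hy
  have hSinv : ∀ (γ : G) (x y : Cn n), R γ x y → S y = S x := by
    intro γ x y h
    exact hASI T R hE ℝ (fun _ y => χ₀ y) γ x y h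
  have hSsm : ∀ x ∈ T, ContDiffAt ℝ ∞ S x := by
    intro x hx
    obtain ⟨U, m, γ, τ, hxU, hUo, hUT, hL, -, hcomp, hAS⟩ := hfin x hx
    have hev : S =ᶠ[𝓝 x] fun x => ∑ k, χ₀ (τ k x) := by
      filter_upwards [hUo.mem_nhds hxU] with y hy
      exact hAS ℝ (fun _ y => χ₀ y) hvan y hy
    refine ContDiffAt.congr_of_eventuallyEq ?_ hev
    refine ContDiffAt.sum fun k _ => ?_
    have h1 : ContDiffAt ℝ ∞ (τ k) x :=
      (holo_contDiffOn_real hUo (hL k).1.2.1).contDiffAt (hUo.mem_nhds hxU)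
    exact (hsm.contDiffAt).comp x h1
  have hsub : tsupport (fun x => χ₀ x / S x) ⊆ tsupport χ₀ := by
    refine closure_mono ?_
    intro x hx h
    apply hx
    simp [h]
  refine ⟨fun x => χ₀ x / S x, ⟨⟨?_, ?_, hsub.trans htM⟩, ?_, ?_⟩, fun x hx =>
    div_pos (hpos x (hKdef ▸ Or.inr hx)) (hSpos x (hC hx))⟩
  · rw [contDiff_iff_contDiffAt]
    intro x
    by_cases hx : x ∈ T
    · exact (hsm.contDiffAt).div (hSsm x hx) (hSpos x hx).ne'
    · have hx' : x ∉ tsupport χ₀ := fun h => hx (htM h)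
      have hev : (fun x => χ₀ x / S x) =ᶠ[𝓝 x] fun _ => 0 := by
        filter_upwards [(isClosed_tsupport χ₀).isOpen_compl.mem_nhds hx'] with y hy
        rw [image_eq_zero_of_notMem_tsupport hy, zero_div]
      exact contDiffAt_const.congr_of_eventuallyEq hev
  · exact htc.of_isClosed_subset (isClosed_tsupport _) hsub
  · intro x
    by_cases hx : x ∈ T
    · exact div_nonneg (h0 x) (hSpos x hx).le
    · have hx' : x ∉ tsupport χ₀ := fun h => hx (htM h)
      simp [image_eq_zero_of_notMem_tsupport hx']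
  · intro x hx
    obtain ⟨U, m, γ, τ, hxU, hUo, hUT, hL, -, hcomp, hAS⟩ := hfin x hx
    have e : S x = ∑ k, χ₀ (τ k x) := hAS ℝ (fun _ y => χ₀ y) hvan x hxU
    rw [hAS ℝ (fun _ y => χ₀ y / S y) (fun γ' y hy => by
      simp only [image_eq_zero_of_notMem_tsupport hy, zero_div]) x hxU]
    have h1 : ∀ k, χ₀ (τ k x) / S (τ k x) = χ₀ (τ k x) / S x := fun k => by
      rw [hSinv (γ k) x (τ k x) ((hL k).1.2.2 x hxU)]
    simp only [h1]
    rw [← Finset.sum_div, ← e, div_self (hSpos x hx).ne']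

end Pool.Agent.Helper87.SP
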