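import Pool.Agent.Helper10.SP.GoalsI

/-! # SP-TENS: positivity of the form on tensors -/

set_option autoImplicit false

open Complex Finset
open scoped ComplexConjugate ComplexOrder Matrix

namespace Pool.Agent.Helper87.SP

open Pool.Agent.Helper10.SP

/-- the tensor power of a matrix -/
noncomputable def ten {b : ℕ} (p : ℕ) (A : Matrix (Fin b) (Fin b) ℂ) :
    Matrix (Fin p → Fin b) (Fin p → Fin b) ℂ := fun J L => ∏ s, A (J s) (L s)

theorem ten_mul {b : ℕ} (p : ℕ) (A B : Matrix (Fin b) (Fin b) ℂ) :
    ten p A * ten p B = ten p (A * B) := by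
  ext J L
  simp only [Matrix.mul_apply, ten]
  rw [Finset.prod_univ_sum]
  simp only [Fintype.piFinset_univ]
  refine Finset.sum_congr rfl fun K _ => ?_
  rw [Finset.prod_mul_distrib]

theorem ten_one {b : ℕ} (p : ℕ) : ten p (1 : Matrix (Fin b) (Fin b) ℂ) = 1 := by
  ext J L
  by_cases h : J = L
  · subst h
    simp [ten]
  · rw [Matrix.one_apply_ne h]
    have : ∃ s, J s ≠ L s := by
      by_contra hc
      push Not at hc
      exact h (funext hc)
    obtain ⟨s, hs⟩ := this
    exact Finset.prod_eq_zero (Finset.mem_univ s) (Matrix.one_apply_ne hs)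

open scoped MatrixOrder in
theorem exists_fac {b : ℕ} {θ : Matrix (Fin b) (Fin b) ℂ} (hθ : θ.PosDef) :
    ∃ B : Matrix (Fin b) (Fin b) ℂ, θ = Bᴴ * B := by
  obtain ⟨B, hB⟩ := CStarAlgebra.nonneg_iff_eq_star_mul_self.mp hθ.posSemidef.nonneg
  exact ⟨B, hB⟩

theorem tens : S_TENS := by
  intro b p θ hθ x
  obtain ⟨B, hB⟩ := exists_fac hθ
  set Q := Bᴴ with hQ
  have hdet : θ.det ≠ 0 := by
    have := hθ.isUnit
    rw [Matrix.isUnit_iff_isUnit_det] at this
    exact this.ne_zero
  have hQdet : IsUnit Q.det := by
    rw [isUnit_iff_ne_zero]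
    intro h
    apply hdet
    rw [hB, Matrix.det_mul, h, zero_mul]
  have hN : ten p Q * ten p Q⁻¹ = 1 := by
    rw [ten_mul, Matrix.mul_nonsing_inv _ hQdet, ten_one]
  set N := ten p Q with hNdef
  have key : tf θ x x = ((∑ K, ‖∑ J, x J * N J K‖ ^ 2 : ℝ) : ℂ) := by
    have h1 : ∀ J L, thp θ J L = ∑ K, N J K * conj (N L K) := by
      intro J L
      have h2 : ∀ j l, θ j l = ∑ k, Q j k * conj (Q l k) := by
        intro j l
        rw [hB, Matrix.mul_apply]
        refine Finset.sum_congr rfl fun k _ => ?_
        rw [hQ]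
        simp [Matrix.conjTranspose_apply]
      simp only [thp, hNdef, ten, h2]
      rw [Finset.prod_univ_sum]
      simp only [Fintype.piFinset_univ]
      refine Finset.sum_congr rfl fun K _ => ?_
      rw [Finset.prod_mul_distrib, map_prod]
    calc tf θ x x = ∑ J, ∑ L, (∑ K, N J K * conj (N L K)) * x J * conj (x L) := by
          simp only [tf, h1]
      _ = ∑ K, (∑ J, x J * N J K) * conj (∑ L, x L * N L K) := by
          have e1 : ∀ J L, (∑ K, N J K * conj (N L K)) * x J * conj (x L) =
              ∑ K, (x J * N J K) * conj (x L * N L K) := by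
            intro J L
            rw [Finset.sum_mul, Finset.sum_mul]
            refine Finset.sum_congr rfl fun K _ => ?_
            rw [map_mul]
            ring
          simp only [e1, map_sum, Finset.sum_mul_sum]
          rw [Finset.sum_congr rfl fun J _ => Finset.sum_comm]
          rw [Finset.sum_comm]
      _ = _ := by
          push_cast
          refine Finset.sum_congr rfl fun K _ => ?_
          rw [Complex.mul_conj, Complex.normSq_eq_norm_sq]
          push_cast
          rfl
  refine ⟨by rw [key]; exact Complex.ofReal_im _, ?_, ?_⟩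
  · rw [key, Complex.ofReal_re]
    exact Finset.sum_nonneg fun K _ => sq_nonneg _
  · intro h
    rw [key, Complex.ofReal_re] at h
    have h1 : ∀ K, ∑ J, x J * N J K = 0 := by
      intro K
      have := (Finset.sum_eq_zero_iff_of_nonneg fun K _ => sq_nonneg _).1 h K (mem_univ _)
      simpa using this
    have h2 : Matrix.vecMul x N = 0 := by
      funext K
      simpa [Matrix.vecMul, dotProduct] using h1 K
    have h3 : Matrix.vecMul x (N * ten p Q⁻¹) = 0 := by
      rw [← Matrix.vecMul_vecMul, h2, Matrix.zero_vecMul]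
    rw [hN, Matrix.vecMul_one] at h3
    exact h3

end Pool.Agent.Helper87.SP
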